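import Pool.Agent.Y934.BEF.Stm
import Pool.Agent.H321R3.HermDens

/-!
# Project BEF: separation and density of unions of cosets
-/

set_option autoImplicit false
open MeasureTheory Filter Topology Set

namespace Pool.Agent.Y759.BEF

open Pool.Agent.H321R3.Herm Pool.Agent.Y934.BEF

lemma sep {ι : Type} [Fintype ι] (A B : ℝ) (hA : 0 < A) (hB : 0 < B) (x ω : ι → ℝ) :
    IsSeparatedSet (cos2 A B x ω) := by
  choose δ hδ hδ2 using fun (q : ι × ι) => exists_gap (x q.1 - x q.2) A hA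
  choose δ' hδ' hδ2' using fun (q : ι × ι) => exists_gap (ω q.1 - ω q.2) B hB
  by_cases hι : Nonempty ι
  · have hfin : ∃ r : ℝ, 0 < r ∧ ∀ q : ι × ι, r ≤ δ q ∧ r ≤ δ' q := by
      obtain ⟨q0, -, hq0⟩ := Finset.exists_min_image (Finset.univ : Finset (ι × ι))
        (fun q => min (δ q) (δ' q)) Finset.univ_nonempty
      refine ⟨min (δ q0) (δ' q0), lt_min (hδ q0) (hδ' q0), fun q => ?_⟩
      have := hq0 q (Finset.mem_univ q)
      exact ⟨this.trans (min_le_left _ _), this.trans (min_le_right _ _)⟩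
    obtain ⟨r, hr, hr2⟩ := hfin
    refine ⟨r, hr, ?_⟩
    rintro γ hγ γ' hγ' hne
    obtain ⟨i, ⟨k, l⟩, rfl⟩ := Set.mem_iUnion.1 hγ
    obtain ⟨j, ⟨k', l'⟩, rfl⟩ := Set.mem_iUnion.1 hγ'
    simp only at hne ⊢
    by_cases h1 : x i + k * A = x j + k' * A
    · have h2 : ω i + l * B ≠ ω j + l' * B := fun h => hne (by rw [h1, h])
      have h3 : (ω i - ω j) + ((l - l' : ℤ) : ℝ) * B ≠ 0 := by
        intro h
        apply h2
        push_cast at h
        linarith
      have h4 := hδ2' (i, j) (l - l') h3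
      refine (hr2 (i, j)).2.trans (h4.trans ?_)
      rw [← Real.sqrt_sq_eq_abs]
      apply Real.sqrt_le_sqrt
      have : ((ω i - ω j) + ((l - l' : ℤ) : ℝ) * B) =
        (ω i + l * B - (ω j + l' * B)) := by push_cast; ring
      simp only at this ⊢
      rw [this]
      nlinarith [sq_nonneg (x i + k * A - (x j + k' * A))]
    · have h3 : (x i - x j) + ((k - k' : ℤ) : ℝ) * A ≠ 0 := by
        intro h
        apply h1
        push_cast at h
        linarith
      have h4 := hδ2 (i, j) (k - k') h3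
      refine (hr2 (i, j)).1.trans (h4.trans ?_)
      rw [← Real.sqrt_sq_eq_abs]
      apply Real.sqrt_le_sqrt
      have : ((x i - x j) + ((k - k' : ℤ) : ℝ) * A) =
        (x i + k * A - (x j + k' * A)) := by push_cast; ring
      simp only at this ⊢
      rw [this]
      nlinarith [sq_nonneg (ω i + l * B - (ω j + l' * B))]
  · refine ⟨1, one_pos, ?_⟩
    rintro γ hγ
    obtain ⟨i, -⟩ := Set.mem_iUnion.1 hγ
    exact absurd ⟨i⟩ hι

lemma range_prod (A B x ω : ℝ) : Set.range (fun p : ℤ × ℤ => (x + p.1 * A, ω + p.2 * B)) =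
    AP x A ×ˢ AP ω B := by
  ext ⟨u, v⟩
  simp only [mem_range, AP, mem_prod, Prod.mk.injEq, Prod.exists]
  constructor
  · rintro ⟨k, l, rfl, rfl⟩
    exact ⟨⟨k, rfl⟩, ⟨l, rfl⟩⟩
  · rintro ⟨⟨k, rfl⟩, ⟨l, rfl⟩⟩
    exact ⟨k, l, rfl, rfl⟩

lemma box_count2 {ι : Type} [Fintype ι] (A B : ℝ) (hA : 0 < A) (hB : 0 < B) (x ω : ι → ℝ)
    (hd : Pairwise (fun i j => Disjoint (AP (x i) A ×ˢ AP (ω i) B)
      (AP (x j) A ×ˢ AP (ω j) B))) (z : ℝ × ℝ) (R : ℝ) :
    (cos2 A B x ω ∩ (Ico z.1 (z.1 + R) ×ˢ Ico z.2 (z.2 + R))).ncard =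
      ∑ i, (AP (x i) A ∩ Ico z.1 (z.1 + R)).ncard *
        (AP (ω i) B ∩ Ico z.2 (z.2 + R)).ncard := by
  unfold cos2
  simp only [range_prod]
  rw [Set.iUnion_inter, ncard_iUnion_fin]
  · refine Finset.sum_congr rfl fun i _ => ?_
    rw [Set.prod_inter_prod, Set.ncard_prod]
  · intro i
    rw [Set.prod_inter_prod]
    exact (AP_finite _ _ hA _ _).prod (AP_finite _ _ hB _ _)
  · intro i j hij
    exact (hd hij).mono inter_subset_left inter_subset_left

lemma density2 {ι : Type} [Fintype ι] (A B : ℝ) (hA : 0 < A) (hB : 0 < B) (x ω : ι → ℝ)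
    (hd : Pairwise (fun i j => Disjoint (AP (x i) A ×ˢ AP (ω i) B)
      (AP (x j) A ×ˢ AP (ω j) B))) :
    lowerBeurlingDensity (cos2 A B x ω) = (Fintype.card ι : ℝ) / (A * B) := by
  unfold lowerBeurlingDensity
  apply Filter.Tendsto.liminf_eq
  have hinv : Tendsto (fun R : ℝ => R⁻¹) atTop (𝓝 0) := tendsto_inv_atTop_zero
  have hlim : (Fintype.card ι : ℝ) / (A * B) =
      (Fintype.card ι : ℝ) * ((1 / A) * (1 / B)) := by
    field_simp
  have hl : Tendsto (fun R : ℝ => (Fintype.card ι : ℝ) * ((1 / A - R⁻¹) * (1 / B - R⁻¹))) atTop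
      (𝓝 ((Fintype.card ι : ℝ) / (A * B))) := by
    have := ((hinv.const_sub (1 / A)).mul (hinv.const_sub (1 / B))).const_mul
      (Fintype.card ι : ℝ)
    rw [sub_zero, sub_zero] at this
    rw [hlim]
    exact this
  have hu : Tendsto (fun R : ℝ => (Fintype.card ι : ℝ) * ((1 / A + R⁻¹) * (1 / B + R⁻¹))) atTop
      (𝓝 ((Fintype.card ι : ℝ) / (A * B))) := by
    have := ((hinv.const_add (1 / A)).mul (hinv.const_add (1 / B))).const_mul
      (Fintype.card ι : ℝ)
    rw [add_zero, add_zero] at this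
    rw [hlim]
    exact this
  refine tendsto_of_tendsto_of_tendsto_of_le_of_le' hl hu ?_ ?_
  · filter_upwards [eventually_ge_atTop (max A B), eventually_gt_atTop (0 : ℝ)] with R hR hR0
    refine le_ciInf fun z => ?_
    rw [le_div_iff₀ (by positivity), box_count2 A B hA hB x ω hd]
    push_cast
    have h1 : (Fintype.card ι : ℝ) * ((1 / A - R⁻¹) * (1 / B - R⁻¹)) * R ^ 2 =
        ∑ i : ι, (R / A - 1) * (R / B - 1) := by
      rw [Finset.sum_const, nsmul_eq_mul, Finset.card_univ]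
      field_simp
    rw [h1]
    refine Finset.sum_le_sum fun i _ => ?_
    have h2 := AP_ncard_ge (x i) A hA z.1 R
    have h3 := AP_ncard_ge (ω i) B hB z.2 R
    have h4 : 0 ≤ R / B - 1 := by
      have : 1 ≤ R / B := by
        rw [le_div_iff₀ hB, one_mul]
        exact (le_max_right _ _).trans hR
      linarith
    exact mul_le_mul h2 h3 h4 (Nat.cast_nonneg _)
  · filter_upwards [eventually_gt_atTop (0 : ℝ)] with R hR0
    refine (ciInf_le ⟨0, ?_⟩ ((0, 0) : ℝ × ℝ)).trans ?_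
    · rintro _ ⟨z, rfl⟩
      positivity
    rw [div_le_iff₀ (by positivity), box_count2 A B hA hB x ω hd]
    push_cast
    have h1 : (Fintype.card ι : ℝ) * ((1 / A + R⁻¹) * (1 / B + R⁻¹)) * R ^ 2 =
        ∑ i : ι, (R / A + 1) * (R / B + 1) := by
      rw [Finset.sum_const, nsmul_eq_mul, Finset.card_univ]
      field_simp
    rw [h1]
    refine Finset.sum_le_sum fun i _ => ?_
    have h2 := AP_ncard_le (x i) A hA 0 R hR0.le
    have h3 := AP_ncard_le (ω i) B hB 0 R hR0.le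
    exact mul_le_mul h2 h3 (Nat.cast_nonneg _) (by positivity)

/-- separation and density of a union of disjoint cosets of `A ℤ × B ℤ` -/
theorem dens : DensStm := by
  intro ι _ A B hA hB x ω hdis
  refine ⟨sep A B hA hB x ω, density2 A B hA hB x ω ?_⟩
  intro i j hij
  rw [Set.disjoint_left]
  rintro ⟨u, v⟩ ⟨⟨k, hk⟩, ⟨l, hl⟩⟩ ⟨⟨k', hk'⟩, ⟨l', hl'⟩⟩
  simp only at hk hl hk' hl'
  refine hdis i j hij (k' - k) (l' - l) ?_ ?_
  · push_cast
    linarith
  · push_cast
    linarith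

end Pool.Agent.Y759.BEF
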